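import Pool.Agent.Run7.h424.M21.Fin
import Pool.Agent.Run7.h289.D18.Sc

/-!
The criterion for the minimal model of the twist by `-n` of `X_0(21)`: helper289's complete descent
(`iff21`) moved to the minimal model with helper424's `s_iso`.
-/

set_option autoImplicit false

open WeierstrassCurve

namespace Run7.h89.P21

open Pool.Agent.TH841.NF.D (Sha)
open Pool.Agent.Y700 (VR)
open Pool.Agent.N969.P15 (Qc)

/-- the model of helper289 -/
abbrev EK (n : ℕ) : WeierstrassCurve ℚ := ⟨0, ((-25 * n : ℤ) : ℚ), 0, ((144 * n ^ 2 : ℤ) : ℚ), 0⟩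

lemma vrK (n : ℕ) : VR (EJ n) (EK n) 1 (-9 * n) 0 0 where
  u0 := one_ne_zero
  e1 := by norm_num
  e2 := by push_cast; ring
  e3 := by norm_num
  e4 := by push_cast; ring
  e6 := by push_cast; ring

lemma deltaK {n : ℕ} (hn : n ≠ 0) : (EK n).Δ ≠ 0 := by
  intro h0
  have := (vrK n).delta
  rw [h0, mul_zero] at this
  exact Run7.h424.M21.delta hn this

open Classical in
/-- **the criterion, for the minimal model** -/
theorem iffI {n : ℕ} (hn : Squarefree n) (h84 : n % 84 = 19 ∨ n % 84 = 31 ∨ n % 84 = 55) :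
    (Finite (EI n).toAffine.Point ∧ ∀ (k : ℕ) (x : Sha (EI n)), 2 ^ k • x = 0 → x = 0) ↔ Qc n := by
  have h4 : n % 4 = 3 := by omega
  have hn0 : n ≠ 0 := by omega
  have h1 := Run7.h424.M21.s_iso n h4
  have h2 := Pool.Agent.Run7.h289.D18.iff21 hn h84 (W := EK n) rfl
  have hD := deltaK hn0
  have e := (vrK n).equiv hD
  have f := (Pool.Agent.Y655.XT.isoVR (vrK n) hD).sha
  rw [← h2]
  constructor
  · rintro ⟨a1, a2⟩
    have b1 : Finite (EJ n).toAffine.Point := h1.1.1 a1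
    refine ⟨Finite.of_equiv _ e.symm.toEquiv, fun k x hx => ?_⟩
    have b2 := (h1.2 (2 ^ k)).1 (a2 k)
    have b3 := b2 (f x) (by rw [← map_nsmul, hx, map_zero])
    rwa [AddEquiv.map_eq_zero_iff] at b3
  · rintro ⟨a1, a2⟩
    refine ⟨h1.1.2 (Finite.of_equiv _ e.toEquiv), fun k => (h1.2 (2 ^ k)).2 fun x hx => ?_⟩
    have b3 := a2 k (f.symm x) (by rw [← map_nsmul, hx, map_zero])
    rwa [AddEquiv.map_eq_zero_iff] at b3

end Run7.h89.P21
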