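import Pool.Agent.Run7.h555.P15.Tg

/-!
Local indices: nonsplit multiplicative reduction of type `I₂` (variant of helper555's `idx_I4ns`).
-/

set_option autoImplicit false
set_option linter.unusedSectionVars false

namespace Run7.h89.P21

open WeierstrassCurve WithZero
open Run7.h555.Tam (exists_exp exp_sq exp_cube vint vnat vadd vsub vmul vpow vneg vaddl vsubl vmull vmulr
  vpowl)
open Run7.h555.C12 (CR Tp Cls SG mem_SG_some InG add_T)
open Run7.h555.G6 (AB near_Cls)
open Run7.h555.P15 (NS sing_node)

variable {L : Type} [Field L] {W W' : WeierstrassCurve L} [DecidableEq L] {v : Valuation L ℤᵐ⁰}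

variable {a b : L} (A : AB W a b)

include A in
/-- **nonsplit multiplicative reduction, type `I₂`** -/
theorem idx_I2ns (h2 : v (2 : L) = 1) {e e' : L} (hs : e + e' = -a) (hp : e * e' = b) (he : v e = 1)
    (he' : v e' = exp (-1)) (hns : ∀ s : L, ¬ v (-e - s ^ 2) < 1) :
    (AddSubgroup.closure (NS W v)).index = 2 := by
  have le' : v e' < 1 := by rw [he', ← exp_zero, exp_lt_exp]; norm_num
  have e0 : e ≠ 0 := by
    rintro rfl
    rw [map_zero] at he
    exact zero_ne_one he
  have e'0 : e' ≠ 0 := by
    rintro rfl
    rw [map_zero] at he'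
    exact exp_ne_zero he'.symm
  have hb0 : b ≠ 0 := A.ne
  have ha : a = -(e + e') := by linear_combination hs
  have hee : v (e - e') = 1 := by
    rw [v.map_sub_eq_of_lt_left (by rw [he]; exact le'), he]
  have S1 : CR W e (e * (e - e')) := by
    refine ⟨A.k1, A.k3, ?_, ?_, ?_⟩
    · rw [A.k2, A.k4, A.k6, ha, ← hp]; ring
    · rw [A.k2, A.k4, ha, ← hp]; ring
    · refine mul_ne_zero e0 ?_
      intro h0
      rw [h0, map_zero] at hee
      exact zero_ne_one hee
  set H := SG S1 (near_Cls (v := v)) with hH
  -- the near squares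
  have hnear : ∀ X Y (h : W.toAffine.Nonsingular X Y),
      (.some X Y h : W.toAffine.Point) ∈ H ↔ 1 ≤ v X := by
    intro X Y h
    have hy : Y ^ 2 = X * (X - e) * (X - e') := by
      rw [A.eqn h, ha, ← hp]; ring
    rw [hH, mem_SG_some]
    constructor
    · rintro ⟨h3, h4⟩
      by_contra hc
      push Not at hc
      have hXe : X ≠ e := by
        rintro rfl
        rw [he] at hc
        exact lt_irrefl _ hc
      obtain ⟨-, s, hs'⟩ := h3 hXe
      have h5 : v (X - e) = 1 := by
        rw [v.map_sub_eq_of_lt_right (by rw [he]; exact hc), he]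
      rw [h5] at hs'
      apply hns s
      have e5 : -e - s ^ 2 = (X - e - s ^ 2) - X := by ring
      rw [e5]
      exact vsubl hs' hc
    · intro h1
      have hX0 : X ≠ 0 := by
        rintro rfl
        simp at h1
      refine ⟨fun hXe => ⟨sub_ne_zero.2 hXe, Y / X, ?_⟩, fun hXe => ⟨S1.ne, e, ?_⟩⟩
      · have e5 : X - e - (Y / X) ^ 2 = (X - e) * (e' / X) := by
          rw [div_pow, hy]
          field_simp
          ring
        rw [e5, map_mul, map_div₀]
        have h6 : v e' / v X < 1 := by
          rw [div_lt_one₀ (lt_of_lt_of_le zero_lt_one h1)]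
          exact lt_of_lt_of_le le' h1
        calc v (X - e) * (v e' / v X) < v (X - e) * 1 :=
              mul_lt_mul_of_pos_left h6 (zero_lt_iff.2 ((v.ne_zero_iff).2 (sub_ne_zero.2 hXe)))
          _ = v (X - e) := mul_one _
      · have e5 : e * (e - e') - e ^ 2 = -(e * e') := by ring
        rw [e5, Valuation.map_neg, map_mul, map_mul, he, hee, one_mul, one_mul]
        exact le'
  have hcl : AddSubgroup.closure (NS W v) = H := by
    have : NS W v = (H : Set W.toAffine.Point) := by
      apply Set.ext
      intro P
      constructor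
      · intro hP
        rcases P with _ | ⟨x, y, h⟩
        · exact H.zero_mem
        · exact (hnear x y h).2 ((sing_node A h2 hs hp he le' h).1 (hP x y h rfl))
      · intro hP x y h e1
        rw [e1] at hP
        exact (sing_node A h2 hs hp he le' h).2 ((hnear x y h).1 hP)
    rw [this]
    exact AddSubgroup.closure_eq _
  rw [hcl]
  -- the point `(0, 0)`
  have hT : Tp A.S0 ∉ H := by
    unfold Tp
    rw [hnear]
    rw [map_zero]
    simp
  have hall : ∀ P : W.toAffine.Point, P ∈ H ∨ P + Tp A.S0 ∈ H := by
    intro P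
    rcases P with _ | ⟨X, Y, h⟩
    · exact Or.inl H.zero_mem
    · by_cases h1 : 1 ≤ v X
      · exact Or.inl ((hnear X Y h).2 h1)
      · push Not at h1
        right
        by_cases hX0 : X = 0
        · have hY0 := Run7.h555.C12.Y_zero A.S0 hX0 h
          subst hX0 hY0
          have : (.some 0 0 h : W.toAffine.Point) + Tp A.S0 = 0 := Run7.h555.C12.T_add_T A.S0
          rw [this]
          exact H.zero_mem
        · obtain ⟨X', Y', h', hX', hadd⟩ := add_T A.S0 hX0 h
          rw [hadd, hnear]
          rw [sub_zero, sub_zero] at hX'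
          rw [hX']
          obtain ⟨k, hk⟩ := exists_exp v hX0
          have hvb : v b = exp (-1) := by rw [← hp, map_mul, he, he', one_mul]
          have hy : Y ^ 2 = X * (X - e) * (X - e') := by
            rw [A.eqn h, ha, ← hp]; ring
          have hk1 : k < 0 := by
            rw [hk, ← exp_zero, exp_lt_exp] at h1
            exact h1
          rw [map_div₀, hvb, hk, ← exp_sub, ← exp_zero, exp_le_exp]
          omega
  -- the index
  have hTT : Tp A.S0 + Tp A.S0 = 0 := Run7.h555.C12.T_add_T A.S0
  rw [AddSubgroup.index_eq_two_iff]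
  refine ⟨Tp A.S0, fun P => ?_⟩
  rcases hall P with hP | hP
  · refine Or.inr ⟨hP, fun h => hT ?_⟩
    have := H.sub_mem h hP
    rwa [add_sub_cancel_left] at this
  · refine Or.inl ⟨hP, fun h => hT ?_⟩
    have := H.sub_mem hP h
    rwa [add_sub_cancel_left] at this

end Run7.h89.P21
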