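import Pool.Agent.W165.CE.FF
import Pool.Agent.Y812.XF.HtKd
import Pool.Agent.Run7.h741.MG.Stm

/-!
The numbers of points of the twists of `X_0(21)`.

Port of helper555's `Run7/h555/P15/Ap.lean` to level 21.
-/

set_option autoImplicit false

open WeierstrassCurve

namespace Run7.h89.P21

open Pool.Agent.W97.MT (affCount ap)
open Pool.Agent.Run7.h741.MG (E21)
open Pool.Agent.Y682.XF (kr)
open Pool.Agent.H82R3.EK (card_points)

/-- the quadratic twist by `D = 1` modulo `4` of the curve `X_0(21)` -/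
def WT (D : ℤ) : WeierstrassCurve ℤ :=
  ⟨1, (D - 1) / 4, 0, -(4 * D ^ 2), -(D ^ 3)⟩

lemma WT_one : WT 1 = E21 := by
  unfold WT E21
  norm_num

/-- the coefficients of the equation of the twist -/
lemma coeffs {D : ℤ} (hD : D % 4 = 1) : 4 * ((D - 1) / 4) = D - 1 := by omega

/-- the equation of the twist -/
lemma equation_iff (D : ℤ) (R : Type) [CommRing R] (x y : R) :
    ((WT D).map (Int.castRingHom R)).toAffine.Equation x y ↔
      y ^ 2 + x * y = x ^ 3 + (((D - 1) / 4 : ℤ) : R) * x ^ 2 -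
        4 * (D : R) ^ 2 * x - (D : R) ^ 3 := by
  rw [WeierstrassCurve.Affine.equation_iff]
  unfold WT
  simp only [WeierstrassCurve.map, eq_intCast]
  push_cast
  constructor
  · intro h
    linear_combination h
  · intro h
    linear_combination h

/-- the cubic form in odd characteristic -/
lemma pts_cubic {D : ℤ} (hD : D % 4 = 1) (k : Type) [Field k] (h2 : (2 : k) ≠ 0) :
    Nat.card {P : k × k // ((WT D).map (Int.castRingHom k)).toAffine.Equation P.1 P.2} =
    Nat.card {x : k × k // x.2 ^ 2 = x.1 * (x.1 - 9 * D) * (x.1 + 7 * D)} := by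
  have c1 := coeffs hD
  have h4 : (4 : k) ≠ 0 := by
    rw [show (4 : k) = 2 * 2 by norm_num]
    exact mul_ne_zero h2 h2
  have h8 : (8 : k) ≠ 0 := by
    rw [show (8 : k) = 2 * 4 by norm_num]
    exact mul_ne_zero h2 h4
  have h64 : (64 : k) ≠ 0 := by
    rw [show (64 : k) = 8 * 8 by norm_num]
    exact mul_ne_zero h8 h8
  have d1 : (4 : k) * (((D - 1) / 4 : ℤ) : k) = D - 1 := by
    have := congrArg (Int.cast : ℤ → k) c1
    push_cast at this
    linear_combination this
  refine Nat.card_congr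
    { toFun := fun x => ⟨(4 * x.1.1 + D, 4 * (2 * x.1.2 + x.1.1)), ?_⟩
      invFun := fun x => ⟨((x.1.1 - D) / 4, (x.1.2 / 4 - (x.1.1 - D) / 4) / 2), ?_⟩
      left_inv := fun x => ?_
      right_inv := fun x => ?_ }
  · have h := (equation_iff D k x.1.1 x.1.2).1 x.2
    show (4 * (2 * x.1.2 + x.1.1)) ^ 2 = (4 * x.1.1 + D) *
      (4 * x.1.1 + D - 9 * D) * (4 * x.1.1 + D + 7 * D)
    linear_combination 64 * h + 16 * x.1.1 ^ 2 * d1
  · have h := x.2
    rw [equation_iff]
    obtain ⟨X, hX⟩ : ∃ X, X = (x.1.1 - D) / 4 := ⟨_, rfl⟩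
    obtain ⟨Y, hY⟩ : ∃ Y, Y = (x.1.2 / 4 - X) / 2 := ⟨_, rfl⟩
    have e1 : x.1.1 = 4 * X + D := by
      rw [hX]
      field_simp
      ring
    have e2 : x.1.2 = 4 * (2 * Y + X) := by
      rw [hY]
      field_simp
      ring
    rw [← hX, ← hY]
    apply mul_left_cancel₀ h64
    rw [e1, e2] at h
    linear_combination h - 16 * X ^ 2 * d1
  · apply Subtype.ext
    apply Prod.ext
    · show (4 * x.1.1 + D - D) / 4 = x.1.1
      field_simp
      ring
    · show (4 * (2 * x.1.2 + x.1.1) / 4 - (4 * x.1.1 + D - D) / 4) / 2 = x.1.2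
      field_simp
      ring
  · apply Subtype.ext
    apply Prod.ext
    · show 4 * ((x.1.1 - D) / 4) + D = x.1.1
      field_simp
      ring
    · show 4 * (2 * ((x.1.2 / 4 - (x.1.1 - D) / 4) / 2) + (x.1.1 - D) / 4) = x.1.2
      field_simp
      ring

section sums

variable {k : Type} [Field k] [Fintype k] [DecidableEq k]

/-- the character sum -/
noncomputable def cs (D : k) : ℤ := ∑ x : k, quadraticChar k (x * (x - 9 * D) * (x + 7 * D))

lemma cs_scale (hk : ringChar k ≠ 2) (D : k) : cs D = quadraticChar k D * cs (1 : k) := by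
  by_cases hD : D = 0
  · rw [hD, MulChar.map_zero, zero_mul]
    unfold cs
    simp only [mul_zero, sub_zero, add_zero]
    have h1 : ∀ x : k, quadraticChar k (x * x * x) = quadraticChar k x := by
      intro x
      rw [map_mul, map_mul]
      by_cases hx : x = 0
      · rw [hx, MulChar.map_zero, mul_zero]
      · rw [← pow_two, quadraticChar_sq_one hx, one_mul]
    simp_rw [h1]
    exact quadraticChar_sum_zero hk
  · unfold cs
    rw [Finset.mul_sum]
    have e := Equiv.sum_comp (Equiv.mulLeft₀ D hD)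
      (fun x => quadraticChar k (x * (x - 9 * D) * (x + 7 * D)))
    rw [← e]
    refine Finset.sum_congr rfl fun x _ => ?_
    show quadraticChar k (D * x * (D * x - 9 * D) * (D * x + 7 * D)) = _
    have e1 : D * x * (D * x - 9 * D) * (D * x + 7 * D) =
        D ^ 2 * (D * (x * (x - 9 * 1) * (x + 7 * 1))) := by ring
    rw [e1, map_mul, map_pow, quadraticChar_sq_one hD, one_mul, map_mul]

end sums

lemma two_ne {p : ℕ} [Fact p.Prime] (hp2 : p ≠ 2) : (2 : ZMod p) ≠ 0 := by
  intro h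
  have h1 : ((2 : ℕ) : ZMod p) = 0 := by exact_mod_cast h
  rw [ZMod.natCast_eq_zero_iff] at h1
  exact hp2 ((Nat.prime_dvd_prime_iff_eq Fact.out Nat.prime_two).1 h1)

lemma ap_odd {D : ℤ} (hD : D % 4 = 1) {p : ℕ} [Fact p.Prime] (hp2 : p ≠ 2) :
    ap (WT D) p = -cs (D : ZMod p) := by
  have hF : ringChar (ZMod p) ≠ 2 := by
    rw [ZMod.ringChar_zmod_n]; exact hp2
  unfold ap affCount
  rw [pts_cubic hD (ZMod p) (two_ne hp2),
    card_points hF (fun x => x * (x - 9 * (D : ZMod p)) * (x + 7 * (D : ZMod p))), ZMod.card]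
  unfold cs
  ring

lemma three_pts : Nat.card {P : ZMod 2 × ZMod 2 // P.2 ^ 2 + P.1 * P.2 =
    P.1 ^ 3 + 0 * P.1 ^ 2 - 4 * 1 ^ 2 * P.1 - 1 ^ 3} = 3 := by
  rw [Nat.card_eq_fintype_card]
  decide

lemma one_pt : Nat.card {P : ZMod 2 × ZMod 2 // P.2 ^ 2 + P.1 * P.2 =
    P.1 ^ 3 + 1 * P.1 ^ 2 - 4 * 1 ^ 2 * P.1 - 1 ^ 3} = 1 := by
  rw [Nat.card_eq_fintype_card]
  decide

/-- **the twist** -/
theorem ap_twist {D : ℤ} (hD : D % 4 = 1) {p : ℕ} (hp : p.Prime) :
    ap (WT D) p = kr D p * ap E21 p := by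
  have : Fact p.Prime := ⟨hp⟩
  unfold kr
  by_cases hp2 : p = 2
  · subst hp2
    rw [if_pos rfl]
    have h8 : D % 8 = 1 ∨ D % 8 = 5 := by omega
    have hc : ∀ D : ℤ, affCount (WT D) 2 = Nat.card {P : ZMod 2 × ZMod 2 //
        P.2 ^ 2 + P.1 * P.2 = P.1 ^ 3 + (((D - 1) / 4 : ℤ) : ZMod 2) * P.1 ^ 2 -
        4 * (D : ZMod 2) ^ 2 * P.1 - (D : ZMod 2) ^ 3} := by
      intro D
      unfold affCount
      refine Nat.card_congr (Equiv.subtypeEquivRight fun P => ?_)
      exact equation_iff D (ZMod 2) P.1 P.2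
    have h1 : ∀ D : ℤ, D % 8 = 1 → ap (WT D) 2 = -1 := by
      intro D hD
      obtain ⟨m, rfl⟩ : ∃ m, D = 8 * m + 1 := ⟨D / 8, by omega⟩
      have a1 : (((8 * m + 1 - 1) / 4 : ℤ) : ZMod 2) = 0 := by
        have e : (8 * m + 1 - 1) / 4 = 2 * m := by omega
        rw [e]
        push_cast
        rw [show (2 : ZMod 2) = 0 by rfl]
        ring
      have a2 : (((8 * m + 1 : ℤ)) : ZMod 2) = 1 := by
        push_cast
        rw [show (8 : ZMod 2) = 0 by rfl]
        ring
      unfold ap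
      rw [hc, a1, a2]
      rw [three_pts]
      norm_num
    have h5 : ∀ D : ℤ, D % 8 = 5 → ap (WT D) 2 = 1 := by
      intro D hD
      obtain ⟨m, rfl⟩ : ∃ m, D = 8 * m + 5 := ⟨D / 8, by omega⟩
      have a1 : (((8 * m + 5 - 1) / 4 : ℤ) : ZMod 2) = 1 := by
        have e : (8 * m + 5 - 1) / 4 = 2 * m + 1 := by omega
        rw [e]
        push_cast
        rw [show (2 : ZMod 2) = 0 by rfl]
        ring
      have a2 : (((8 * m + 5 : ℤ)) : ZMod 2) = 1 := by
        push_cast
        rw [show (8 : ZMod 2) = 0 by rfl, show (5 : ZMod 2) = 1 by rfl]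
        ring
      unfold ap
      rw [hc, a1, a2]
      rw [one_pt]
      norm_num
    rw [← WT_one, h1 1 (by norm_num)]
    rcases h8 with h8 | h8
    · rw [if_pos h8, h1 D h8]
      norm_num
    · rw [if_neg (by omega), h5 D h8]
      norm_num
  · rw [if_neg hp2, ap_odd hD hp2, ← WT_one, ap_odd (by norm_num) hp2]
    have hF : ringChar (ZMod p) ≠ 2 := by
      rw [ZMod.ringChar_zmod_n]; exact hp2
    rw [cs_scale hF, Int.cast_one]
    have e : quadraticChar (ZMod p) (D : ZMod p) = jacobiSym D p := by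
      rw [← jacobiSym.legendreSym.to_jacobiSym]
      rfl
    rw [e]
    ring

/-- Hasse's bound -/
theorem ap_good {l : ℕ} (hl : l.Prime) (h : ¬ l ∣ 21) : |(ap E21 l : ℝ)| ≤ 2 * Real.sqrt l := by
  have : Fact l.Prime := ⟨hl⟩
  by_cases hp2 : l = 2
  · subst hp2
    have h1 : ap E21 2 = -1 := by
      unfold ap
      rw [← WT_one]
      unfold affCount
      have e : Nat.card {P : ZMod 2 × ZMod 2 //
          ((WT 1).map (Int.castRingHom (ZMod 2))).toAffine.Equation P.1 P.2} =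
          Nat.card {P : ZMod 2 × ZMod 2 // P.2 ^ 2 + P.1 * P.2 =
          P.1 ^ 3 + 0 * P.1 ^ 2 - 4 * 1 ^ 2 * P.1 - 1 ^ 3} := by
        refine Nat.card_congr (Equiv.subtypeEquivRight fun P => ?_)
        rw [equation_iff]
        norm_num
      rw [e]
      rw [three_pts]
      norm_num
    rw [h1]
    have h2 : (1 : ℝ) ≤ Real.sqrt 2 := by
      rw [Real.one_le_sqrt]; norm_num
    push_cast
    rw [abs_neg, abs_one]
    linarith
  · have hF : ringChar (ZMod l) ≠ 2 := by
      rw [ZMod.ringChar_zmod_n]; exact hp2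
    have h3 : (3 : ZMod l) ≠ 0 := by
      intro h0
      have h1 : ((3 : ℕ) : ZMod l) = 0 := by exact_mod_cast h0
      rw [ZMod.natCast_eq_zero_iff] at h1
      exact h (h1.trans (by norm_num))
    have h27 : (27 : ZMod l) ≠ 0 := by
      rw [show (27 : ZMod l) = 3 * (3 * 3) by norm_num]
      exact mul_ne_zero h3 (mul_ne_zero h3 h3)
    have h9 := W165.CE.hasse hF (-63 - 2 ^ 2 / 3 : ZMod l)
      (-(2 * 63 / 3) - 2 * 2 ^ 3 / 27)
    rw [ZMod.card] at h9
    have e : Nat.card {x : ZMod l × ZMod l // x.2 ^ 2 = x.1 ^ 3 + (-63 - 2 ^ 2 / 3) * x.1 +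
        (-(2 * 63 / 3) - 2 * 2 ^ 3 / 27)} = affCount E21 l := by
      rw [← WT_one]
      unfold affCount
      rw [pts_cubic (by norm_num) (ZMod l) (two_ne hp2)]
      refine Nat.card_congr
        { toFun := fun x => ⟨(x.1.1 + 2 / 3, x.1.2), ?_⟩
          invFun := fun x => ⟨(x.1.1 - 2 / 3, x.1.2), ?_⟩
          left_inv := fun x => ?_
          right_inv := fun x => ?_ }
      · have h := x.2
        show x.1.2 ^ 2 = (x.1.1 + 2 / 3) * (x.1.1 + 2 / 3 - 9 * ((1 : ℤ) : ZMod l)) *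
          (x.1.1 + 2 / 3 + 7 * ((1 : ℤ) : ZMod l))
        rw [h, Int.cast_one]
        field_simp
        ring
      · obtain ⟨⟨a, b⟩, h⟩ := x
        show b ^ 2 = (a - 2 / 3) ^ 3 + (-63 - 2 ^ 2 / 3) * (a - 2 / 3) +
          (-(2 * 63 / 3) - 2 * 2 ^ 3 / 27)
        have h' : b ^ 2 = a * (a - 9 * ((1 : ℤ) : ZMod l)) * (a + 7 * ((1 : ℤ) : ZMod l)) := h
        rw [h', Int.cast_one]
        field_simp
        ring
      · apply Subtype.ext
        apply Prod.ext
        · show x.1.1 + 2 / 3 - 2 / 3 = x.1.1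
          ring
        · rfl
      · apply Subtype.ext
        apply Prod.ext
        · show x.1.1 - 2 / 3 + 2 / 3 = x.1.1
          ring
        · rfl
    rw [e] at h9
    unfold ap
    push_cast at h9 ⊢
    exact h9

end Run7.h89.P21
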