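import Pool.Agent.Run7.h741.MG.Coef

/-!
# The cusp form of level `21`, the dimension of the space of cusp forms and the Fricke involution
-/

set_option autoImplicit false

open UpperHalfPlane MatrixGroups CongruenceSubgroup Filter Topology Asymptotics
open scoped ModularForm Pointwise

namespace Pool.Agent.Run7.h741.MG

open Pool.Agent.W97.TW
open Pool.Agent.W97.MT (qq qq_ne norm_qq norm_qq_lt im_mul z_ne H_open QV iI iI_pos iI_eventually tendsto_qq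
  hasDerivAt_qq tpi_ne line_im line_re inv_I im_aux exists_qq const_of_deriv)
open Pool.Agent.Run7.h741.MF (hqe)
open Run7.h135.P21 (rep bb0 bb3 bb7 tt cs cs_bij mem_GG GG slash_tt tt_tendsto)
open Matrix.SpecialLinearGroup (mapGL)
open ConjAct

/-- the form as a function on the upper half-plane -/
noncomputable def e21 (z : ℍ) : ℂ := ff z

lemma e21_slash {γ : SL(2, ℤ)} (hγ : γ ∈ Gamma0 21) : e21 ∣[(2 : ℤ)] γ = e21 := by
  obtain ⟨a, b, c, d, h, rfl⟩ := exists_mkSL γ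
  rw [mkSL_mem] at hγ
  obtain ⟨c, rfl⟩ := hγ
  funext z
  have h' : a * d - b * (21 * c) = 1 := by push_cast at h; linarith
  have h1 := ff_gamma hcp hqe h' z z.im_pos
  have h0 : (21 * c * z + d : ℂ) ≠ 0 := (G_gamma h' z.im_pos).2.1
  rw [ModularForm.SL_slash_apply, mkSL_denom]
  unfold e21
  rw [mkSL_smul]
  push_cast
  rw [h1, zpow_neg, show ((21 * c * z + d : ℂ) ^ (2 : ℤ)) = (21 * c * z + d) ^ 2 from zpow_ofNat _ 2,
    mul_comm, ← mul_assoc, inv_mul_cancel₀ (pow_ne_zero 2 h0), one_mul]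

lemma e21_holo : MDifferentiable (modelWithCornersSelf ℂ ℂ) (modelWithCornersSelf ℂ ℂ) e21 := by
  rw [UpperHalfPlane.mdifferentiable_iff]
  have h1 : DifferentiableOn ℂ ff {z : ℂ | 0 < z.im} := fun w hw =>
    (ff_diff hw).differentiableWithinAt
  refine h1.congr fun w hw => ?_
  simp only [Function.comp_apply]
  unfold e21
  rw [ofComplex_apply_of_im_pos hw]

/-- the coset of a matrix -/
lemma exists_rep (γ : SL(2, ℤ)) : ∃ i : Run7.h135.P21.II, rep i * γ⁻¹ ∈ Gamma0 21 := by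
  obtain ⟨i, hi⟩ := cs_bij.2 (QuotientGroup.mk ⟨mapGL ℝ γ⁻¹, ⟨γ⁻¹, rfl⟩⟩)
  refine ⟨i, ?_⟩
  unfold cs at hi
  rw [QuotientGroup.eq, Subgroup.mem_subgroupOf] at hi
  have h2 : mapGL ℝ (rep i * γ⁻¹) ∈ GG := by
    have e : mapGL ℝ (rep i * γ⁻¹) = (mapGL ℝ (rep i)⁻¹)⁻¹ * mapGL ℝ γ⁻¹ := by
      rw [map_mul, map_inv, map_inv, inv_inv]
    rw [e]
    exact hi
  exact (mem_GG _).1 h2

/-- zero at infinity from the decay at a cusp -/
lemma zero_of_map {m j : ℂ → ℂ} (h : IsMap m j) {G : ℍ → ℂ} (N : ℝ) (hN : 0 < N) (s : ℝ)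
    (c : ℂ) (hG : ∀ z : ℍ, G z = c * (ff (m ((z + s) / N)) * j ((z + s) / N))) :
    IsZeroAtImInfty G := by
  obtain ⟨C, T, hC0, hT, hC⟩ := h.decay
  have hw : ∀ z : ℍ, (((z : ℂ) + s) / N).im = z.im / N := by
    intro z
    rw [Complex.div_ofReal_im]
    simp
  have h1 : Tendsto (fun z : ℍ => ‖c‖ * (C * Real.exp (-(2 * Real.pi) * (z.im / N)))) atImInfty
      (𝓝 0) := by
    have h2 : Tendsto (fun y : ℝ => ‖c‖ * (C * Real.exp (-(2 * Real.pi) * (y / N)))) atTop (𝓝 0) := by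
      have h3 : Tendsto (fun y : ℝ => -(2 * Real.pi) * (y / N)) atTop atBot := by
        have h4 : Tendsto (fun y : ℝ => y / N) atTop atTop := tendsto_id.atTop_div_const hN
        exact h4.const_mul_atTop_of_neg (by have := Real.pi_pos; linarith)
      have h5 := ((Real.tendsto_exp_atBot.comp h3).const_mul C).const_mul ‖c‖
      rw [mul_zero, mul_zero] at h5
      exact h5
    exact h2.comp tendsto_comap
  show Tendsto G atImInfty (𝓝 0)
  rw [tendsto_zero_iff_norm_tendsto_zero]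
  refine tendsto_of_tendsto_of_tendsto_of_le_of_le' tendsto_const_nhds h1
    (Eventually.of_forall fun z => norm_nonneg _) ?_
  have h3 : ∀ᶠ z : ℍ in atImInfty, N * (T + 1) ≤ z.im := by
    rw [atImInfty]
    exact tendsto_comap.eventually (eventually_ge_atTop _)
  filter_upwards [h3] with z hz
  rw [hG z, norm_mul]
  refine mul_le_mul_of_nonneg_left ?_ (norm_nonneg _)
  have h4 := hC (((z : ℂ) + s) / N) (by
    rw [hw, lt_div_iff₀ hN]
    nlinarith)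
  rw [hw] at h4
  exact h4

/-- the value of a slash -/
lemma slash_val (b : SL(2, ℤ)) (z : ℍ) : (e21 ∣[(2 : ℤ)] b) z =
    ff (((b 0 0 : ℤ) * (z : ℂ) + (b 0 1 : ℤ)) / ((b 1 0 : ℤ) * z + (b 1 1 : ℤ))) *
      (((b 1 0 : ℤ) * (z : ℂ) + (b 1 1 : ℤ)) ^ 2)⁻¹ := by
  rw [ModularForm.SL_slash_apply, ModularGroup.denom_apply]
  unfold e21
  rw [UpperHalfPlane.specialLinearGroup_apply, zpow_neg]
  norm_cast

lemma lin_ne (k : ℝ) (hk : k ≠ 0) (z : ℍ) : ((k : ℂ) * z + 1) ≠ 0 := by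
  intro h
  have h1 := congrArg Complex.im h
  have h2 : ((k : ℂ) * z + 1).im = k * z.im := by simp
  rw [h2, Complex.zero_im] at h1
  exact (mul_ne_zero hk z.im_pos.ne') h1

/-- the base matrices -/
lemma base_zero (b : SL(2, ℤ)) (hb : b = 1 ∨ b = bb0 ∨ b = bb3 ∨ b = bb7) :
    IsZeroAtImInfty (e21 ∣[(2 : ℤ)] b) := by
  rcases hb with rfl | rfl | rfl | rfl
  · refine zero_of_map idMap 1 one_pos 0 1 fun z => ?_
    rw [slash_val]
    simp
  · refine zero_of_map (isCusp21 hcp hqe).map 21 (by norm_num) 0 (1 / 21) fun z => ?_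
    rw [slash_val]
    have h0 : (z : ℂ) ≠ 0 := UpperHalfPlane.ne_zero z
    have e1 : (((bb0 0 0 : ℤ) : ℂ) * z + ((bb0 0 1 : ℤ) : ℂ)) /
        (((bb0 1 0 : ℤ) : ℂ) * z + ((bb0 1 1 : ℤ) : ℂ)) = m21 (((z : ℂ) + (0 : ℝ)) / (21 : ℝ)) := by
      unfold m21
      simp [bb0]
      try field_simp
    have e2 : (((bb0 1 0 : ℤ) : ℂ) * z + ((bb0 1 1 : ℤ) : ℂ)) = z := by simp [bb0]
    rw [e1, e2]
    generalize ff (m21 (((z : ℂ) + (0 : ℝ)) / (21 : ℝ))) = t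
    have w1 : (21 : ℂ) * (((z : ℂ) + ((0 : ℝ) : ℂ)) / ((21 : ℝ) : ℂ)) ^ 2 = z ^ 2 / 21 := by
      push_cast
      ring
    unfold j21
    rw [w1, inv_div]
    ring
  · refine zero_of_map cusp7.map 7 (by norm_num) (-2) (1 / 7) fun z => ?_
    rw [slash_val]
    have h0 : (3 * (z : ℂ) + 1) ≠ 0 := by
      have := lin_ne 3 (by norm_num) z
      exact_mod_cast this
    have e2 : (((bb3 1 0 : ℤ) : ℂ) * z + ((bb3 1 1 : ℤ) : ℂ)) = 3 * z + 1 := by simp [bb3]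
    have e3 : (((bb3 0 0 : ℤ) : ℂ) * z + ((bb3 0 1 : ℤ) : ℂ)) = z := by simp [bb3]
    have w1 : (3 : ℂ) * (((z : ℂ) + ((-2 : ℝ) : ℂ)) / ((7 : ℝ) : ℂ)) + 1 = (3 * z + 1) / 7 := by
      push_cast
      ring
    have e1 : (z : ℂ) / (3 * z + 1) = m7 (((z : ℂ) + ((-2 : ℝ) : ℂ)) / ((7 : ℝ) : ℂ)) := by
      unfold m7
      have w2 : (21 : ℂ) * (((z : ℂ) + ((-2 : ℝ) : ℂ)) / ((7 : ℝ) : ℂ)) + 7 = 3 * z + 1 := by
        push_cast
        ring
      have w3 : (7 : ℂ) * (((z : ℂ) + ((-2 : ℝ) : ℂ)) / ((7 : ℝ) : ℂ)) + 2 = z := by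
        push_cast
        ring
      rw [w2, w3]
    rw [e2, e3, e1]
    generalize ff (m7 (((z : ℂ) + ((-2 : ℝ) : ℂ)) / ((7 : ℝ) : ℂ))) = t
    unfold j7
    rw [w1]
    field_simp
    try ring
  · refine zero_of_map (isCusp3 hcp hqe).map 3 (by norm_num) 1 (1 / 3) fun z => ?_
    rw [slash_val]
    have h0 : (7 * (z : ℂ) + 1) ≠ 0 := by
      have := lin_ne 7 (by norm_num) z
      exact_mod_cast this
    have e2 : (((bb7 1 0 : ℤ) : ℂ) * z + ((bb7 1 1 : ℤ) : ℂ)) = 7 * z + 1 := by simp [bb7]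
    have e3 : (((bb7 0 0 : ℤ) : ℂ) * z + ((bb7 0 1 : ℤ) : ℂ)) = z := by simp [bb7]
    have w1 : (7 : ℂ) * (((z : ℂ) + ((1 : ℝ) : ℂ)) / ((3 : ℝ) : ℂ)) - 2 = (7 * z + 1) / 3 := by
      push_cast
      ring
    have e1 : (z : ℂ) / (7 * z + 1) = m3 (((z : ℂ) + ((1 : ℝ) : ℂ)) / ((3 : ℝ) : ℂ)) := by
      unfold m3
      have w2 : (21 : ℂ) * (((z : ℂ) + ((1 : ℝ) : ℂ)) / ((3 : ℝ) : ℂ)) - 6 = 7 * z + 1 := by
        push_cast
        ring
      have w3 : (3 : ℂ) * (((z : ℂ) + ((1 : ℝ) : ℂ)) / ((3 : ℝ) : ℂ)) - 1 = z := by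
        push_cast
        ring
      rw [w2, w3]
    rw [e2, e3, e1]
    generalize ff (m3 (((z : ℂ) + ((1 : ℝ) : ℂ)) / ((3 : ℝ) : ℂ))) = t
    unfold j3
    rw [w1]
    field_simp
    try ring

lemma e21_zero (γ : SL(2, ℤ)) : IsZeroAtImInfty (e21 ∣[(2 : ℤ)] γ) := by
  obtain ⟨i, hi⟩ := exists_rep γ
  have h1 : e21 ∣[(2 : ℤ)] γ = e21 ∣[(2 : ℤ)] rep i := by
    have h2 : rep i = (rep i * γ⁻¹) * γ := by group
    have h3 : e21 ∣[(2 : ℤ)] ((rep i * γ⁻¹) * γ) = e21 ∣[(2 : ℤ)] γ := by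
      rw [SlashAction.slash_mul, e21_slash hi]
    rw [← h2] at h3
    exact h3.symm
  rw [h1]
  have key : ∀ (b : SL(2, ℤ)) (k : ℤ), IsZeroAtImInfty (e21 ∣[(2 : ℤ)] b) →
      IsZeroAtImInfty (e21 ∣[(2 : ℤ)] (b * tt k)) := by
    intro b k hb
    rw [SlashAction.slash_mul]
    have h3 := Tendsto.comp (show Tendsto _ _ _ from hb) (tt_tendsto k)
    refine Tendsto.congr (fun z => ?_) h3
    exact (slash_tt _ k z).symm
  rcases i with _ | k | k | k
  · exact base_zero 1 (Or.inl rfl)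
  · exact key _ _ (base_zero bb0 (Or.inr (Or.inl rfl)))
  · exact key _ _ (base_zero bb3 (Or.inr (Or.inr (Or.inl rfl))))
  · exact key _ _ (base_zero bb7 (Or.inr (Or.inr (Or.inr rfl))))

/-- the newform of level `21` as a cusp form -/
noncomputable def form21 : CuspForm (Gamma0 21 : Subgroup (GL (Fin 2) ℝ)) 2 where
  toFun := e21
  slash_action_eq' := by
    rintro _ ⟨γ, hγ, rfl⟩
    exact e21_slash hγ
  holo' := e21_holo
  zero_at_cusps' := by
    intro c hc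
    rw [Subgroup.IsArithmetic.isCusp_iff_isCusp_SL2Z] at hc
    rw [OnePoint.isZeroAt_iff_forall_SL2Z hc]
    intro γ _
    exact e21_zero γ

lemma form21_apply (z : ℍ) : form21 z = ff z := rfl

/-- the space of cusp forms is one-dimensional -/
theorem dim_one21 (g : CuspForm (Gamma0 21 : Subgroup (GL (Fin 2) ℝ)) 2) :
    ∃ c : ℂ, ∀ z : ℍ, g z = c * ff z := by
  obtain ⟨P, Ξ, S, rP, -, -, -, -, -, h0, -⟩ := exists_P
  exact dim_one (f21 := form21) form21_apply rP h0 g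

/-! ### the Fricke involution -/

lemma w_det : (0 : ℤ) < 0 * 0 - (-1) * 21 := by norm_num

/-- the matrix of the involution -/
noncomputable def W21 : GL (Fin 2) ℝ := al 0 (-1) 21 0 w_det

/-- the conjugate matrix -/
def wc (γ : SL(2, ℤ)) (c : ℤ) (h : γ 1 0 = 21 * c) : SL(2, ℤ) :=
  ⟨!![γ 1 1, -c; -(21 * γ 0 1), γ 0 0], by
    have := Matrix.det_fin_two γ.1
    rw [γ.2] at this
    rw [Matrix.det_fin_two_of]
    have h' : γ.1 1 0 = 21 * c := h
    rw [h'] at this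
    change γ.1 1 1 * γ.1 0 0 - -c * -(21 * γ.1 0 1) = 1
    linarith⟩

lemma wc_mem (γ : SL(2, ℤ)) (c : ℤ) (h : γ 1 0 = 21 * c) : wc γ c h ∈ Gamma0 21 := by
  rw [Gamma0_mem]
  have e : (wc γ c h) 1 0 = -(21 * γ 0 1) := rfl
  rw [e]
  push_cast
  have : (21 : ZMod 21) = 0 := by decide
  rw [this, zero_mul, neg_zero]

lemma mapGL_val (γ : SL(2, ℤ)) :
    ((mapGL ℝ γ : GL (Fin 2) ℝ) : Matrix (Fin 2) (Fin 2) ℝ) =
      !![(γ 0 0 : ℝ), (γ 0 1 : ℝ); (γ 1 0 : ℝ), (γ 1 1 : ℝ)] := by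
  ext i j
  fin_cases i <;> fin_cases j <;> simp

lemma W21_val : (W21 : Matrix (Fin 2) (Fin 2) ℝ) = !![0, -1; 21, 0] := by
  unfold W21 al
  ext i j
  fin_cases i <;> fin_cases j <;> simp [Matrix.GeneralLinearGroup.mkOfDetNeZero]

lemma wc_eq (γ : SL(2, ℤ)) (c : ℤ) (h : γ 1 0 = 21 * c) :
    W21 * mapGL ℝ γ = mapGL ℝ (wc γ c h) * W21 ∧ mapGL ℝ γ * W21 = W21 * mapGL ℝ (wc γ c h) := by
  have e00 : (wc γ c h) 0 0 = γ 1 1 := rfl
  have e01 : (wc γ c h) 0 1 = -c := rfl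
  have e10 : (wc γ c h) 1 0 = -(21 * γ 0 1) := rfl
  have e11 : (wc γ c h) 1 1 = γ 0 0 := rfl
  constructor
  · apply Units.ext
    rw [Matrix.GeneralLinearGroup.coe_mul, Matrix.GeneralLinearGroup.coe_mul, mapGL_val, mapGL_val,
      W21_val, e00, e01, e10, e11, h]
    ext i j
    fin_cases i <;> fin_cases j <;> simp [Matrix.mul_apply, Fin.sum_univ_two] <;> ring
  · apply Units.ext
    rw [Matrix.GeneralLinearGroup.coe_mul, Matrix.GeneralLinearGroup.coe_mul, mapGL_val, mapGL_val,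
      W21_val, e00, e01, e10, e11, h]
    ext i j
    fin_cases i <;> fin_cases j <;> simp [Matrix.mul_apply, Fin.sum_univ_two] <;> ring

lemma low_dvd {γ : SL(2, ℤ)} (h : γ ∈ Gamma0 21) : ∃ c : ℤ, γ 1 0 = 21 * c := by
  rw [Gamma0_mem, ZMod.intCast_zmod_eq_zero_iff_dvd] at h
  exact h

lemma conjW : toConjAct (W21⁻¹ : GL (Fin 2) ℝ) • (Gamma0 21 : Subgroup (GL (Fin 2) ℝ)) =
    (Gamma0 21 : Subgroup (GL (Fin 2) ℝ)) := by
  ext x
  rw [map_inv, Subgroup.mem_inv_pointwise_smul_iff, toConjAct_smul]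
  constructor
  · rintro ⟨γ, hγ, h⟩
    obtain ⟨c, hc⟩ := low_dvd hγ
    refine ⟨wc γ c hc, wc_mem γ c hc, ?_⟩
    have h1 := (wc_eq γ c hc).2
    have h2 : mapGL ℝ γ = W21 * x * W21⁻¹ := h
    have h3 : W21 * x = W21 * mapGL ℝ (wc γ c hc) := by
      rw [← h1, h2]; group
    exact (mul_left_cancel h3).symm
  · rintro ⟨γ, hγ, rfl⟩
    obtain ⟨c, hc⟩ := low_dvd hγ
    refine ⟨wc γ c hc, wc_mem γ c hc, ?_⟩
    have h1 := (wc_eq γ c hc).1
    show mapGL ℝ (wc γ c hc) = W21 * mapGL ℝ γ * W21⁻¹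
    rw [h1]; group

lemma transfer21 (Γ Γ' : Subgroup (GL (Fin 2) ℝ)) (h : Γ = Γ') (F : CuspForm Γ 2) :
    ∃ g : CuspForm Γ' 2, (g : ℍ → ℂ) = F := by
  subst h
  exact ⟨F, rfl⟩

/-- the form is an eigenform of the involution -/
lemma fricke_c : ∃ c : ℂ, ∀ z : ℂ, 0 < z.im → ff (m21 z) * j21 z = c * ff z := by
  obtain ⟨g, hg⟩ := transfer21 _ _ conjW (CuspForm.translate form21 W21)
  obtain ⟨c, hc⟩ := dim_one21 g
  refine ⟨c, fun z hz => ?_⟩
  have h1 := hc ⟨z, hz⟩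
  rw [hg] at h1
  change ((form21 : ℍ → ℂ) ∣[(2 : ℤ)] al 0 (-1) 21 0 w_det) ⟨z, hz⟩ = c * ff z at h1
  rw [← h1, slash_al]
  have h0 := z_ne hz
  have e : ((0 : ℤ) * (z : ℂ) + ((-1 : ℤ) : ℂ)) / (((21 : ℤ) : ℂ) * z + ((0 : ℤ) : ℂ)) = m21 z := by
    unfold m21; push_cast; congr 1 <;> ring
  change _ = form21 (ofComplex (((0 : ℤ) * (z : ℂ) + ((-1 : ℤ) : ℂ)) /
    (((21 : ℤ) : ℂ) * z + ((0 : ℤ) : ℂ)))) * _ * (((21 : ℤ) : ℂ) * z + ((0 : ℤ) : ℂ)) ^ (-2 : ℤ)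
  have hp := (isCusp21 hcp hqe).pos z hz
  rw [e, ofComplex_apply_of_im_pos hp, form21_apply, zpow_neg]
  change ff (m21 z) * _ = ff (m21 z) * _ * _
  unfold j21
  norm_num
  norm_cast
  rw [mul_assoc]
  congr 1
  field_simp

/-- **the sign of the Fricke involution** -/
theorem fricke (z : ℂ) (hz : 0 < z.im) : ff (-1 / (21 * z)) = -(21 * z ^ 2) * ff z := by
  obtain ⟨c, hc⟩ := fricke_c
  have hM := isCusp21 hcp hqe
  obtain ⟨L, Op, Om, -, -, g2, g3, -⟩ := Run7.h209.P15.lat21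
  obtain ⟨C, hC⟩ := exists_limit hM.map
  obtain ⟨hCL, -⟩ := cusp_value L g2 g3 hM hC
  -- the primitive
  obtain ⟨K, hK⟩ := const_of_deriv (g := fun z => F (m21 z) - c * F z) fun w hw => by
    have h1 := (F_deriv (hM.pos w hw)).comp w (hM.der w hw)
    have h2 := (F_deriv hw).const_mul c
    refine (h1.sub h2).congr_deriv ?_
    linear_combination (2 * Real.pi * Complex.I) * hc w hw
  have hCK : C = K := by
    have h1 : Tendsto (fun z => F (m21 z) - c * F z) iI (𝓝 (C - c * 0)) :=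
      hC.sub (F_QV.tendsto.const_mul c)
    rw [mul_zero, sub_zero] at h1
    have h2 : Tendsto (fun z => F (m21 z) - c * F z) iI (𝓝 K) :=
      tendsto_const_nhds.congr' (iI_pos.mono fun w hw => (hK w hw).symm)
    exact tendsto_nhds_unique h1 h2
  have hinv : ∀ w : ℂ, 0 < w.im → m21 (m21 w) = w := by
    intro w hw
    have h0 := z_ne hw
    unfold m21
    field_simp
  have key : ∀ w : ℂ, 0 < w.im → (c + 1) * ((1 - c) * F w - K) = 0 := by
    intro w hw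
    have h1 := hK w hw
    have h2 := hK (m21 w) (hM.pos w hw)
    rw [hinv w hw] at h2
    linear_combination h2 + c * h1
  have hc1 : c = -1 := by
    by_contra hne
    have hne' : c + 1 ≠ 0 := fun h => hne (by linear_combination h)
    have h1 : Tendsto (fun w => (1 - c) * F w - K) iI (𝓝 ((1 - c) * 0 - K)) :=
      (F_QV.tendsto.const_mul (1 - c)).sub_const K
    have h2 : Tendsto (fun w => (1 - c) * F w - K) iI (𝓝 0) :=
      tendsto_const_nhds.congr' (iI_pos.mono fun w hw =>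
        ((mul_eq_zero.1 (key w hw)).resolve_left hne').symm)
    have h3 := tendsto_nhds_unique h1 h2
    apply hCL
    rw [hCK]
    have h4 : K = 0 := by linear_combination -h3
    rw [h4]
    exact zero_mem _
  have h1 := hc z hz
  rw [hc1] at h1
  have h0 := z_ne hz
  have h2 : ff (m21 z) = -(21 * z ^ 2) * ff z := by
    unfold j21 at h1
    field_simp at h1
    linear_combination h1
  exact h2

end Pool.Agent.Run7.h741.MG
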