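import Pool.Agent.Run7.h89.P21.T5
import Pool.Agent.Run7.h89.P21.Asm
import Pool.Agent.Run7.h135.P21.C1A
import Pool.Agent.Run7.h135.P15.C1B
import Pool.Agent.Run7.h238.P21.T4
import Pool.Agent.Run7.h238.P21.PC
import Pool.Agent.Run7.h238.P21.CP7
import Pool.Agent.Run7.h483.P21.HE
import Pool.Agent.Run7.h483.P21.REL2
import Pool.Agent.Run7.h483.P21.C2
import Pool.Agent.Run7.h483.P21.Par2

/-!
# `X_0(21)`: the parity of the number of vectors, the bilinear identities, the diagonal identity and the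
parity of the Gross sum, unconditional
-/

set_option autoImplicit false

namespace Pool.Agent.Run7.h89.P21

open Pool.Agent.Run7.h843.P21

theorem t_R : S_R := r_of' Run7.h238.P21.t_T4a Run7.h238.P21.t_T4b

theorem t_BIL1 : S_BIL1 := bil1 Run7.h238.P21.t_CP7 Pool.Agent.Run7.h483.P21.t_REL22

theorem t_BIL2 : S_BIL2 := bil2 Run7.h238.P21.t_CP7 Pool.Agent.Run7.h483.P21.t_REL22

/-- DIAG -/
theorem t_DIAG : S_DIAG := diag Pool.Agent.Run7.h135.P21.c1a Pool.Agent.Run7.h135.P15.c1b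
  Pool.Agent.Run7.h483.P21.t_C2A Pool.Agent.Run7.h483.P21.t_C2B t_BIL1 t_BIL2
  Pool.Agent.Run7.h483.P21.t_HE

/-- PAR -/
theorem t_PAR : S_PAR :=
  Pool.Agent.Run7.h483.P21.t_PAR Run7.h238.P21.pc Run7.h238.P21.t_CP7 t_R

end Pool.Agent.Run7.h89.P21
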