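import Pool.Agent.Run7.h555.TL.Lg
import Pool.Agent.Run7.h741.MG.Fin21
import Pool.Agent.Run7.h843.P21.Sign
import Pool.Agent.Run7.h89.P21.Fin
import Pool.Agent.Run7.h89.P21.M6

/-!
The `L`-functions of the twists by `-n` of `X_0(21)` (`n ≡ 19, 31, 55 mod 84` squarefree) and their
exact central values (level 21 analogue of helper555's `Run7/h555/P15/{Ltw,Gs}.lean`).
-/

set_option autoImplicit false

open Complex Filter Topology Set UpperHalfPlane MatrixGroups CongruenceSubgroup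

namespace Run7.h89.P21

open Pool.Agent.W97.MT (ap qq)
open Pool.Agent.Run7.h741.MG (E21 ff ff_q II facts_21 bd_21)
open Pool.Agent.Run7.h843.P21 (Cls0 cc Fp)
open Pool.Agent.Run7.h843.P21.MS (kappa II_im II_conj kappa_eq kappa_pos)
open Pool.Agent.N969.P15 (Qc un)

lemma ff_add_one {z : ℂ} (hz : 0 < z.im) : ff (z + 1) = ff z := by
  have h : qq (z + 1) = qq z := by
    unfold qq
    rw [mul_add, Complex.exp_add, mul_one, Complex.exp_two_pi_mul_I, mul_one]
  rw [ff_q (by simpa using hz), ff_q hz, h]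

lemma II_add_one (r : ℚ) : II (r + 1) = II r := by
  unfold II
  congr 1
  refine MeasureTheory.setIntegral_congr_fun measurableSet_Ioi fun t ht => ?_
  have ht' : (0 : ℝ) < t := ht
  show ff (((r + 1 : ℚ) : ℂ) + t * Complex.I) = ff ((r : ℂ) + t * Complex.I)
  rw [← ff_add_one (z := (r : ℂ) + t * Complex.I) (by simpa using ht')]
  congr 1
  push_cast
  ring

/-- the Euler factor of the twist by `-n` -/
noncomputable def eul (n : ℕ) (s : ℂ) (p : ℕ) : ℂ :=
  (1 - (ap (CI n) p : ℂ) * (p : ℂ) ^ (-s) + if p ∣ 21 * n then 0 else (p : ℂ) ^ (1 - 2 * s))⁻¹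

/-- **the `L`-function of the twist by `-n` and its central value** -/
theorem exists_Lex {n : ℕ} (hn : Squarefree n) (h4 : n % 4 = 3) (hco : n.Coprime 21) :
    ∃ F : ℂ → ℂ, Differentiable ℂ F ∧
      (∀ s : ℂ, 3 / 2 < s.re →
        HasProd (fun p : ℕ => if p.Prime then eul n s p else 1) (F s)) ∧
      F 1 * ((√n : ℝ) : ℂ) = ((kappa * ((∑ u ∈ un n, jacobiSym u n * Fp u n : ℤ) : ℝ) : ℝ) : ℂ) :=
  Run7.h555.TL.exists_L facts_21 bd_21 II_add_one II_conj
    (fun _ _ h1 h2 h3 => II_im h1 h2 (by exact_mod_cast h3)) hn h4 hco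
    (a' := ap (CI n)) (fun _ hp => ap_twist (by omega) hp)

/-- **the exact central values of the twists of `X_0(21)`** -/
theorem center {L : PeriodPair} {Op Om : ℝ} (hOm : 0 < Om) (g2 : L.g₂ = 193 / 12)
    (g3 : L.g₃ = 575 / 216)
    (hL : ∀ w : ℂ, w ∈ L.lattice ↔ ∃ a b : ℤ, w = a * Op + b * Om * Complex.I)
    {n : ℕ} (hn : Cls0 n) :
    ∃ F : ℂ → ℂ, Differentiable ℂ F ∧
      (∀ s : ℂ, 3 / 2 < s.re →
        HasProd (fun p : ℕ => if p.Prime then eul n s p else 1) (F s)) ∧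
      ∃ y : ℤ, cc n = 2 ^ (n.primeFactors.card + 1) * y ∧ (Odd y ↔ Qc n) ∧
        18 * F 1 * ((√n : ℝ) : ℂ) = ((Om * (2 ^ n.primeFactors.card * y) ^ 2 : ℝ) : ℂ) := by
  have hco : n.Coprime 21 := by
    have h3 : Nat.Coprime n 3 := by
      rw [Nat.coprime_comm, Nat.Prime.coprime_iff_not_dvd Nat.prime_three]
      have := hn.2
      omega
    have h7 : Nat.Coprime n 7 := by
      rw [Nat.coprime_comm, Nat.Prime.coprime_iff_not_dvd (by norm_num : Nat.Prime 7)]
      have := hn.2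
      omega
    exact Nat.Coprime.mul_right h3 h7
  have h4 : n % 4 = 3 := by
    have := hn.2
    omega
  obtain ⟨F, hF, hprod, hval⟩ := exists_Lex hn.1 h4 hco
  obtain ⟨y, hy, hodd⟩ := Pool.Agent.Run7.h89.P21.t_PAR n hn
  have hd := Pool.Agent.Run7.h89.P21.t_DIAG n hn
  have hk : kappa = Om := by
    rcases kappa_eq g2 g3 hOm hL with h | h
    · exact h
    · have := kappa_pos
      linarith
  refine ⟨F, hF, hprod, y, hy, hodd, ?_⟩
  have h1 : (18 : ℝ) * ((∑ u ∈ un n, jacobiSym u n * Fp u n : ℤ) : ℝ) =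
      (2 ^ n.primeFactors.card * y) ^ 2 := by
    have h2 := congrArg (fun x : ℤ => (x : ℝ)) hd
    rw [hy] at h2
    push_cast at h2
    push_cast
    rw [pow_succ] at h2
    linear_combination (1 / 4 : ℝ) * h2
  have h3 : 18 * F 1 * ((√n : ℝ) : ℂ) = 18 * (F 1 * ((√n : ℝ) : ℂ)) := by ring
  rw [h3, hval, hk, ← h1]
  push_cast
  ring

end Run7.h89.P21
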