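import Pool.Agent.Run7.h843.P21.Defs
import Pool.Agent.Run7.h135.P15.RStm
import Pool.Agent.Run7.h135.P21.T7
import Pool.Agent.Run7.h238.P21.Cnt

/-!
# `X_0(21)`: the parity of the number of vectors (`S_R`): definitions and statements of the parts

`N` is the even ternary lattice of determinant six (inner product `nn`), its dual scaled by six is
the lattice of the vectors `V3` with the inner product `ip`. The kernel in `N` of a vector `v` of
squarefree norm `n ≡ 3 mod 4` is a binary form of discriminant `-n`. (Port of helper135's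
`Run7/h135/P15/RStm.lean` to level 21.)
-/

set_option autoImplicit false

namespace Pool.Agent.Run7.h89.P21

open Finset Run7.h238.P21
open Pool.Agent.Run7.h843.P21 (rr S_R)
open Pool.Agent.N969.P15 (V3 Qc)
open Pool.Agent.Run7.h135.P15 (Red)
open Pool.Agent.Run7.h135.P21 (Slk t7g)

/-- the pairs of vectors of `N` with Gram matrix `(2 a, h; h, 2 c)` -/
def PN (a h c : ℤ) : Set (V3 × V3) :=
  {q | nn q.1 q.1 = 2 * a ∧ nn q.1 q.2 = h ∧ nn q.2 q.2 = 2 * c}

/-- T2: every vector has exactly two oriented bases of its kernel with reduced Gram matrix -/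
def S_T2 : Prop := ∀ n : ℕ, Squarefree n → n % 4 = 3 → ¬ 3 ∣ n →
  2 * rr n = ∑ q ∈ Red n, ((PN q.1 q.2.1 q.2.2).ncard : ℤ)

/-- T3: the number of representations of a binary form whose first coefficient is prime to `n` -/
def S_T3 : Prop := ∀ (n : ℕ) (a h c : ℤ), Squarefree n → n % 2 = 1 → 0 < a →
  4 * a * c - h ^ 2 = n → IsCoprime a (n : ℤ) →
  (PN a h c).ncard = 12 * ((range n).filter fun y : ℕ => (n : ℤ) ∣ a * (y : ℤ) ^ 2 + 3).card

/-- T4a: the number of representations of a binary form by `N` -/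
def S_T4a : Prop := ∀ (n : ℕ) (a h c : ℤ), Squarefree n → n % 2 = 1 → ¬ 3 ∣ n → 0 < a →
  4 * a * c - h ^ 2 = n →
  (PN a h c).ncard = 0 ∨ (PN a h c).ncard = 12 * 2 ^ n.primeFactors.card

/-- T4b: the same with the condition, for a form which represents `b` and `c'`, `b c' = n` -/
def S_T4b : Prop := ∀ (n b c' : ℕ) (a h c : ℤ), Squarefree n → n % 2 = 1 → ¬ 3 ∣ n → 0 < a →
  4 * a * c - h ^ 2 = n → b * c' = n → (∃ r s : ℤ, a * r ^ 2 + h * r * s + c * s ^ 2 = b) →
  (∃ r s : ℤ, a * r ^ 2 + h * r * s + c * s ^ 2 = c') →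
  ((PN a h c).ncard = 12 * 2 ^ n.primeFactors.card ↔ Slk 3 b c')

open Classical in
/-- T5: the parity of the number of represented reduced forms -/
def S_T5 : Prop := ∀ n : ℕ, Squarefree n → n % 4 = 3 → ¬ 3 ∣ n →
  (Odd ((Red n).filter fun q => (PN q.1 q.2.1 q.2.2).ncard ≠ 0).card ↔
    Odd (n.divisors.filter fun b => b < n / b ∧ Slk 3 b (n / b)).card)

theorem jac3 {n : ℕ} (h4 : n % 4 = 3) (h3 : n % 3 = 1) : jacobiSym (-((3 : ℕ) : ℤ)) n = 1 := by
  have hodd : Odd n := Nat.odd_iff.mpr (by omega)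
  have e1 : jacobiSym (-((3 : ℕ) : ℤ)) n = jacobiSym (-1) n * jacobiSym ((3 : ℕ) : ℤ) n := by
    rw [← jacobiSym.mul_left]
    congr 1
  have e2 : jacobiSym (-1) n = -1 := by
    rw [jacobiSym.at_neg_one hodd, ZMod.χ₄_nat_three_mod_four h4]
  have e3 : jacobiSym ((3 : ℕ) : ℤ) n = -jacobiSym (n : ℤ) 3 :=
    jacobiSym.quadratic_reciprocity_three_mod_four (by norm_num) h4
  have e4 : jacobiSym (n : ℤ) 3 = 1 := by
    rw [jacobiSym.mod_left]
    have : ((n : ℤ) % (3 : ℕ)) = 1 := by omega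
    rw [this, jacobiSym.one_left]
  rw [e1, e2, e3, e4]
  norm_num

theorem r_of (h2 : S_T2) (h4 : S_T4a) (h5 : S_T5) : S_R := by
  classical
  intro n hn h4' h3'
  have hn3 : ¬ 3 ∣ n := by omega
  set G := (Red n).filter fun q => (PN q.1 q.2.1 q.2.2).ncard ≠ 0 with hG
  have hsum : ∑ q ∈ Red n, ((PN q.1 q.2.1 q.2.2).ncard : ℤ) =
      G.card * (12 * 2 ^ n.primeFactors.card) := by
    have e1 : ∑ q ∈ Red n, ((PN q.1 q.2.1 q.2.2).ncard : ℤ) =
        ∑ q ∈ G, ((PN q.1 q.2.1 q.2.2).ncard : ℤ) := by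
      rw [hG, sum_filter]
      apply sum_congr rfl
      intro q _
      split_ifs with h
      · rfl
      · push Not at h
        rw [h]
        rfl
    rw [e1]
    have e2 : ∀ q ∈ G, ((PN q.1 q.2.1 q.2.2).ncard : ℤ) = 12 * 2 ^ n.primeFactors.card := by
      intro q hq
      rw [hG, mem_filter] at hq
      obtain ⟨q1, q2⟩ := hq
      rw [Red, mem_filter, mem_product, mem_product, mem_Icc] at q1
      obtain ⟨⟨⟨q3, q4⟩, q5⟩, q6, q7, q8, q9⟩ := q1
      have := (h4 n q.1 q.2.1 q.2.2 hn (by omega) hn3 (by omega) q8).resolve_left q2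
      rw [this]
      push_cast
      ring
    rw [sum_congr rfl e2, sum_const, nsmul_eq_mul]
  have t7 := t7g (k := 3) hn h4' (by
    rw [Nat.coprime_comm]
    exact (Nat.Coprime.symm ((Nat.Prime.coprime_iff_not_dvd Nat.prime_three).mpr hn3))) (jac3 h4' h3')
  refine ⟨3 * G.card, ?_, ?_⟩
  · have := h2 n hn h4' hn3
    rw [hsum] at this
    rw [pow_succ]
    linarith
  · rw [Int.odd_mul]
    have h3'' : Odd (3 : ℤ) := by decide
    rw [← t7, ← h5 n hn h4' hn3]
    simp only [h3'', true_and]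
    rw [Int.odd_coe_nat]

end Pool.Agent.Run7.h89.P21
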