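import Pool.Agent.Run7.h89.P21.RStm
import Pool.Agent.Run7.h135.P15.T2
import Pool.Agent.Run7.h238.P21.Bij

/-!
# `X_0(21)`: vectors and reduced bases of their kernels (`S_T2`)

Port of helper135's `Run7/h135/P15/T2.lean` to level 21.
-/

set_option autoImplicit false

namespace Pool.Agent.Run7.h89.P21

open Finset Run7.h238.P21
open Pool.Agent.Run7.h843.P21 (ip vec rr)
open Pool.Agent.N969.P15 (V3)
open Pool.Agent.Run7.h135.P15 (Red Rd mem_Red red_uniq)

/-! ### bases of the kernel -/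

/-- reduced pairs -/
def Rp (n : ℤ) (p : V3 × V3) : Prop := ∃ a h c : ℤ, Rd n a h c ∧ p ∈ PN a h c

theorem cr_cr {v x c : V3} (h0 : dt v x = 0) (h1 : dt c x = 1) : cr x (cr v c) = v := by
  simp only [dt] at h0 h1
  refine ext3 ?_ ?_ ?_ <;> simp only [cr0, cr1, cr2]
  · linear_combination (v 0) * h1 - (c 0) * h0
  · linear_combination (v 1) * h1 - (c 1) * h0
  · linear_combination (v 2) * h1 - (c 2) * h0

theorem exists_pair (v : V3) : ∃ x y : V3, cr x y = v := by
  -- a nonzero vector orthogonal to `v`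
  obtain ⟨u, hu, hu0⟩ : ∃ u : V3, u ≠ 0 ∧ dt v u = 0 := by
    by_cases h : v 0 = 0 ∧ v 1 = 0
    · refine ⟨![1, 0, 0], ?_, ?_⟩
      · intro h1
        have := congrFun h1 0
        simp at this
      · simp only [dt]
        simp [h.1]
    · refine ⟨![v 1, -v 0, 0], ?_, ?_⟩
      · intro h1
        have h2 := congrFun h1 0
        have h3 := congrFun h1 1
        simp at h2 h3
        exact h ⟨h3, h2⟩
      · simp only [dt, Matrix.cons_val_zero, Matrix.cons_val_one, Matrix.cons_val]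
        ring
  obtain ⟨e, he, g, c, hg, hc⟩ := prim_dec u hu
  refine ⟨g, cr v c, cr_cr ?_ hc⟩
  have : e * dt v g = 0 := by
    rw [← hu0, hg]
    simp only [dt, Pi.smul_apply, smul_eq_mul]
    ring
  exact (mul_eq_zero.mp this).resolve_left he.ne'

theorem cr_shift (x y : V3) (t : ℤ) : cr x (y + t • x) = cr x y := by
  refine ext3 ?_ ?_ ?_ <;> simp only [cr0, cr1, cr2, Pi.add_apply, Pi.smul_apply, smul_eq_mul] <;>
    ring

theorem cr_turn (x y : V3) : cr y (-x) = cr x y := by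
  refine ext3 ?_ ?_ ?_ <;> simp only [cr0, cr1, cr2, Pi.neg_apply] <;> ring

theorem nn_pos {x : V3} (hx : x ≠ 0) : 0 < nn x x := by
  have hs : nn x x = x 0 ^ 2 + 2 * x 1 ^ 2 + x 2 ^ 2 + (x 0 - x 2) ^ 2 := by
    unfold nn
    ring
  rw [hs]
  by_contra h
  apply hx
  have k0 := sq_nonneg (x 0)
  have k1 := sq_nonneg (x 1)
  have k2 := sq_nonneg (x 2)
  have k3 := sq_nonneg (x 0 - x 2)
  have h0 : x 0 = 0 := pow_eq_zero_iff two_ne_zero |>.mp (by linarith)
  have h1 : x 1 = 0 := pow_eq_zero_iff two_ne_zero |>.mp (by linarith)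
  have h2 : x 2 = 0 := pow_eq_zero_iff two_ne_zero |>.mp (by linarith)
  exact ext3 h0 h1 h2

theorem nn_neg_right (x y : V3) : nn x (-y) = -nn x y := by
  unfold nn
  simp only [Pi.neg_apply]
  ring

theorem nn_neg_neg (x y : V3) : nn (-x) (-y) = nn x y := by
  unfold nn
  simp only [Pi.neg_apply]
  ring

theorem exists_rp {n : ℤ} {v : V3} (hn : 0 < n) (hv : ip v v = n) :
    ∃ p : V3 × V3, cr p.1 p.2 = v ∧ Rp n p := by
  have hv0 : v ≠ 0 := by
    rintro rfl
    simp [ip] at hv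
    omega
  classical
  have hex : {m : ℕ | ∃ x y : V3, cr x y = v ∧ nn x x = m}.Nonempty := by
    obtain ⟨x, y, h⟩ := exists_pair v
    have hx : x ≠ 0 := by
      rintro rfl
      apply hv0
      rw [← h]
      refine ext3 ?_ ?_ ?_ <;> simp [cr0, cr1, cr2]
    exact ⟨(nn x x).toNat, x, y, h, (Int.toNat_of_nonneg (nn_pos hx).le).symm⟩
  obtain ⟨m, ⟨x, y, hxy, hm⟩, hmm⟩ := WellFounded.has_min (Nat.lt_wfRel.wf) _ hex
  have hmin : ∀ x' y' : V3, cr x' y' = v → nn x x ≤ nn x' x' := by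
    intro x' y' h
    have hx : x' ≠ 0 := by
      rintro rfl
      apply hv0
      rw [← h]
      refine ext3 ?_ ?_ ?_ <;> simp [cr0, cr1, cr2]
    have h1 : ¬ (nn x' x').toNat < m :=
      hmm _ ⟨x', y', h, (Int.toNat_of_nonneg (nn_pos hx).le).symm⟩
    have h2 := nn_pos hx
    omega
  have hx : x ≠ 0 := by
    rintro rfl
    apply hv0
    rw [← hxy]
    refine ext3 ?_ ?_ ?_ <;> simp [cr0, cr1, cr2]
  obtain ⟨a, ha⟩ := even_nn x
  have ha0 : 0 < a := by
    have := nn_pos hx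
    omega
  -- shift
  obtain ⟨t, h', hh', b1, b2⟩ : ∃ t h' : ℤ, h' = nn x y + 2 * a * t ∧ -a < h' ∧ h' ≤ a := by
    refine ⟨-((nn x y + a - 1) / (2 * a)), (nn x y + a - 1) % (2 * a) - (a - 1), ?_, ?_, ?_⟩
    · have := Int.emod_add_mul_ediv (nn x y + a - 1) (2 * a)
      linear_combination this
    · have := Int.emod_nonneg (nn x y + a - 1) (by omega : 2 * a ≠ 0)
      omega
    · have := Int.emod_lt_of_pos (nn x y + a - 1) (by omega : 0 < 2 * a)
      omega
  set y' := y + t • x with hy'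
  have hc1 : cr x y' = v := by rw [hy', cr_shift, hxy]
  have hc2 : nn x y' = h' := by
    rw [hy', nn_add, hh', ha]
    ring
  obtain ⟨c, hc⟩ := even_nn y'
  have hd : 4 * a * c - h' ^ 2 = n := by
    have := ip_cr x y' x y'
    rw [hc1, hv, ha, hc, hc2, nn_comm y' x, hc2] at this
    linear_combination -this
  have hac : a ≤ c := by
    have := hmin y' (-x) (by rw [cr_turn, hc1])
    omega
  by_cases hs : a = c ∧ h' < 0
  · refine ⟨(y', -x), by rw [cr_turn, hc1], c, -h', a, ⟨by omega, ?_, by omega, ?_, ?_⟩, ?_⟩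
    · rw [abs_neg, abs_le]
      omega
    · linear_combination hd
    · intro _
      omega
    · refine ⟨hc, ?_, ?_⟩
      · simp only
        rw [nn_neg_right, nn_comm, hc2]
      · simp only
        rw [nn_neg_neg, ha]
  · refine ⟨(x, y'), hc1, a, h', c, ⟨ha0, ?_, hac, hd, ?_⟩, ha, hc2, hc⟩
    · rw [abs_le]
      omega
    · rintro (h1 | h1)
      · rw [abs_eq ha0.le] at h1
        omega
      · by_contra h2
        exact hs ⟨h1, by omega⟩

theorem rp_uniq {n : ℤ} (h3 : ∀ a : ℤ, n ≠ 3 * a ^ 2) (hodd : n % 2 = 1) {v c0 : V3}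
    (hv : dt v c0 = 1) {p p' : V3 × V3} (hp : cr p.1 p.2 = v) (hp' : cr p'.1 p'.2 = v)
    (H : Rp n p) (H' : Rp n p') : p' = p ∨ p' = (-p.1, -p.2) := by
  obtain ⟨x, y⟩ := p
  obtain ⟨x', y'⟩ := p'
  simp only at hp hp'
  have htp : tp x y c0 = 1 := by rw [tp, hp, hv]
  have z1 : dt x' (cr x y) = 0 := by
    rw [hp, ← hp']
    simp only [dt, cr0, cr1, cr2]
    ring
  have z2 : dt y' (cr x y) = 0 := by
    rw [hp, ← hp']
    simp only [dt, cr0, cr1, cr2]
    ring
  obtain ⟨p, q, r, s, ex, ey⟩ : ∃ p q r s : ℤ, x' = p • x + r • y ∧ y' = q • x + s • y := by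
    refine ⟨dt x' (cr y c0), dt y' (cr y c0), dt x' (cr c0 x), dt y' (cr c0 x), ?_, ?_⟩
    · have := bas_exp htp x'
      rw [z1, zero_smul, add_zero] at this
      exact this
    · have := bas_exp htp y'
      rw [z2, zero_smul, add_zero] at this
      exact this
  have hdet : p * s - q * r = 1 := by
    have e1 : dt (cr x' y') c0 = (p * s - q * r) * dt (cr x y) c0 := by
      rw [ex, ey]
      simp only [dt, cr0, cr1, cr2, Pi.add_apply, Pi.smul_apply, smul_eq_mul]
      ring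
    rw [hp', hp, hv] at e1
    linarith
  obtain ⟨a, h, c, R, g1, g2, g3⟩ := H
  obtain ⟨a', h', c', R', g1', g2', g3'⟩ := H'
  simp only at g1 g2 g3 g1' g2' g3'
  have f1 : a' = a * p ^ 2 + h * p * r + c * r ^ 2 := by
    have : nn x' x' = p ^ 2 * nn x x + 2 * (p * r) * nn x y + r ^ 2 * nn y y := by
      rw [ex]
      simp only [nn, Pi.add_apply, Pi.smul_apply, smul_eq_mul]
      ring
    rw [g1', g1, g2, g3] at this
    linarith
  have f2 : h' = 2 * a * p * q + h * (p * s + q * r) + 2 * c * r * s := by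
    have : nn x' y' = p * q * nn x x + (p * s + q * r) * nn x y + r * s * nn y y := by
      rw [ex, ey]
      simp only [nn, Pi.add_apply, Pi.smul_apply, smul_eq_mul]
      ring
    rw [g2', g1, g2, g3] at this
    linarith
  have f3 : c' = a * q ^ 2 + h * q * s + c * s ^ 2 := by
    have : nn y' y' = q ^ 2 * nn x x + 2 * (q * s) * nn x y + s ^ 2 * nn y y := by
      rw [ey]
      simp only [nn, Pi.add_apply, Pi.smul_apply, smul_eq_mul]
      ring
    rw [g3', g1, g2, g3] at this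
    linarith
  rcases red_uniq h3 hodd R R' hdet f1 f2 f3 with ⟨rfl, rfl, rfl, rfl⟩ | ⟨rfl, rfl, rfl, rfl⟩
  · left
    rw [ex, ey]
    simp
  · right
    rw [ex, ey]
    simp

theorem neg_rp {n : ℤ} {p : V3 × V3} (H : Rp n p) : Rp n (-p.1, -p.2) := by
  obtain ⟨a, h, c, R, g1, g2, g3⟩ := H
  exact ⟨a, h, c, R, by rw [nn_neg_neg, g1], by rw [nn_neg_neg, g2], by rw [nn_neg_neg, g3]⟩

theorem cr_neg_neg (x y : V3) : cr (-x) (-y) = cr x y := by
  refine ext3 ?_ ?_ ?_ <;> simp only [cr0, cr1, cr2, Pi.neg_apply] <;> ring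

/-- squarefree norm: primitive vectors -/
theorem prim_of {n : ℕ} (hn : Squarefree n) (h0 : 0 < n) {v : V3} (hv : ip v v = n) :
    ∃ c : V3, dt v c = 1 := by
  have hv0 : v ≠ 0 := by
    rintro rfl
    simp [ip] at hv
    omega
  obtain ⟨e, he, g, c, hg, hc⟩ := prim_dec v hv0
  have h1 : (n : ℤ) = e * e * ip g g := by
    rw [← hv, hg]
    simp only [ip, Pi.smul_apply, smul_eq_mul]
    ring
  have h2 : e = 1 := by
    lift e to ℕ using he.le
    have h3 : ((e * e : ℕ) : ℤ) ∣ (n : ℤ) := by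
      rw [h1]
      push_cast
      exact Dvd.intro _ rfl
    have h4 := hn e (by exact_mod_cast h3)
    rw [Nat.isUnit_iff] at h4
    rw [h4]
    rfl
  refine ⟨c, ?_⟩
  rw [hg, h2, one_smul]
  rw [← hc]
  simp only [dt]
  ring

theorem t2 : S_T2 := by
  classical
  intro n hn h4 h3
  have h0 : 0 < n := by omega
  have hodd : (n : ℤ) % 2 = 1 := by omega
  have hn3 : ∀ a : ℤ, (n : ℤ) ≠ 3 * a ^ 2 := by
    intro a ha
    have h1 : ((a.natAbs * a.natAbs : ℕ) : ℤ) ∣ (n : ℤ) := by
      rw [ha]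
      push_cast
      rw [abs_mul_abs_self]
      exact ⟨3, by ring⟩
    have h2 := hn a.natAbs (by exact_mod_cast h1)
    rw [Nat.isUnit_iff] at h2
    have h5 : a ^ 2 = 1 := by
      rw [← sq_abs, Int.abs_eq_natAbs, h2]
      norm_num
    rw [h5] at ha
    omega
  have hch : ∀ v : V3, ∃ p : V3 × V3, v ∈ vec n → cr p.1 p.2 = v ∧ Rp n p := by
    intro v
    by_cases hv : v ∈ vec n
    · obtain ⟨p, hp⟩ := exists_rp (by exact_mod_cast h0) ((mem_vec n v).mp hv)
      exact ⟨p, fun _ => hp⟩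
    · exact ⟨0, fun h => absurd h hv⟩
  choose g hg using hch
  have hne : ∀ v ∈ vec n, g v ≠ (-(g v).1, -(g v).2) := by
    intro v hv h
    have h1 : (g v).1 = -(g v).1 := congrArg Prod.fst h
    have h2 : (g v).1 = 0 := by
      refine ext3 ?_ ?_ ?_
      · have := congrFun h1 0
        simp only [Pi.neg_apply, Pi.zero_apply] at this ⊢
        omega
      · have := congrFun h1 1
        simp only [Pi.neg_apply, Pi.zero_apply] at this ⊢
        omega
      · have := congrFun h1 2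
        simp only [Pi.neg_apply, Pi.zero_apply] at this ⊢
        omega
    obtain ⟨a, h, c, R, g1, -⟩ := (hg v hv).2
    rw [h2] at g1
    have := R.a0
    simp [nn] at g1
    omega
  set A := (vec n).image g with hA
  set B := (vec n).image fun v => (-(g v).1, -(g v).2) with hB
  have hcA : A.card = (vec n).card := by
    rw [hA]
    apply card_image_of_injOn
    intro v hv w hw h
    rw [← (hg v hv).1, ← (hg w hw).1, h]
  have hcB : B.card = (vec n).card := by
    rw [hB]
    apply card_image_of_injOn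
    intro v hv w hw h
    rw [← (hg v hv).1, ← (hg w hw).1, ← cr_neg_neg (g v).1, ← cr_neg_neg (g w).1]
    have e1 := congrArg Prod.fst h
    have e2 := congrArg Prod.snd h
    simp only at e1 e2
    rw [e1, e2]
  have hdis : Disjoint A B := by
    rw [Finset.disjoint_left]
    intro p hp hp'
    rw [hA, mem_image] at hp
    rw [hB, mem_image] at hp'
    obtain ⟨v, hv, rfl⟩ := hp
    obtain ⟨w, hw, e⟩ := hp'
    have e1 : cr (g v).1 (g v).2 = cr (g w).1 (g w).2 := by
      rw [← e, cr_neg_neg]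
    rw [(hg v hv).1, (hg w hw).1] at e1
    subst e1
    exact hne v hv e.symm
  have hmem : ∀ p : V3 × V3, p ∈ A ∪ B ↔ Rp n p := by
    intro p
    rw [mem_union, hA, hB, mem_image, mem_image]
    constructor
    · rintro (⟨v, hv, rfl⟩ | ⟨v, hv, rfl⟩)
      · exact (hg v hv).2
      · exact neg_rp (hg v hv).2
    · intro H
      have hv : cr p.1 p.2 ∈ vec n := by
        rw [mem_vec, ip_cr]
        obtain ⟨a, h, c, R, g1, g2, g3⟩ := H
        rw [g1, g3, g2, nn_comm p.2, g2, ← R.dd]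
        ring
      obtain ⟨c0, hc0⟩ := prim_of hn h0 ((mem_vec n _).mp hv)
      rcases rp_uniq hn3 hodd hc0 (hg _ hv).1 rfl (hg _ hv).2 H with h | h
      · left
        exact ⟨_, hv, h.symm⟩
      · right
        exact ⟨_, hv, h.symm⟩
  -- fibres
  let key : V3 × V3 → ℤ × ℤ × ℤ := fun p => (nn p.1 p.1 / 2, nn p.1 p.2, nn p.2 p.2 / 2)
  have hkey : ∀ p ∈ A ∪ B, key p ∈ Red n := by
    intro p hp
    rw [hmem] at hp
    obtain ⟨a, h, c, R, g1, g2, g3⟩ := hp
    rw [mem_Red]
    simp only [key]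
    rw [g1, g2, g3, Int.mul_ediv_cancel_left _ two_ne_zero, Int.mul_ediv_cancel_left _ two_ne_zero]
    exact R
  have hfib : ∀ q ∈ Red n, (PN q.1 q.2.1 q.2.2) =
      (((A ∪ B).filter fun p => key p = q : Finset _) : Set (V3 × V3)) := by
    intro q hq
    ext p
    rw [mem_coe, mem_filter, hmem]
    constructor
    · intro hp
      refine ⟨⟨q.1, q.2.1, q.2.2, mem_Red.mp hq, hp⟩, ?_⟩
      simp only [key]
      rw [hp.1, hp.2.1, hp.2.2, Int.mul_ediv_cancel_left _ two_ne_zero,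
        Int.mul_ediv_cancel_left _ two_ne_zero]
    · rintro ⟨⟨a, h, c, R, g1, g2, g3⟩, hk⟩
      simp only [key] at hk
      rw [g1, g2, g3, Int.mul_ediv_cancel_left _ two_ne_zero,
        Int.mul_ediv_cancel_left _ two_ne_zero] at hk
      rw [← hk]
      exact ⟨g1, g2, g3⟩
  have hsum : (A ∪ B).card = ∑ q ∈ Red n, (PN q.1 q.2.1 q.2.2).ncard := by
    rw [card_eq_sum_card_fiberwise hkey]
    apply sum_congr rfl
    intro q hq
    rw [hfib q hq, Set.ncard_coe_finset]
  rw [card_union_of_disjoint hdis, hcA, hcB] at hsum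
  rw [rr]
  have : ((∑ q ∈ Red n, (PN q.1 q.2.1 q.2.2).ncard : ℕ) : ℤ) =
      ∑ q ∈ Red n, ((PN q.1 q.2.1 q.2.2).ncard : ℤ) := by push_cast; rfl
  rw [← this, ← hsum]
  push_cast
  ring

end Pool.Agent.Run7.h89.P21
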